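import Pool.Agent.R287.BPd

open Pool.Agent.R287.BP

universe u v

namespace Pool.Agent.Results.MP_88a444_an.CompactRSEUniform

/-- If `X` is an `ℓ₁`-predual and the space of compact operators from `X` to `Y` has the BPBp-RSE,
then `Y` is uniformly convex (real case), respectively `ℂ`-uniformly convex (complex case). -/
theorem result :
    (∀ (X : Type u) (Y : Type v) [NormedAddCommGroup X] [NormedSpace ℝ X] [CompleteSpace X]
      [NormedAddCommGroup Y] [NormedSpace ℝ Y] [CompleteSpace Y],
      IsL1Predual ℝ X → CompactBPBpRSE ℝ X Y → IsUniformlyConvex Y) ∧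
    (∀ (X : Type u) (Y : Type v) [NormedAddCommGroup X] [NormedSpace ℂ X] [CompleteSpace X]
      [NormedAddCommGroup Y] [NormedSpace ℂ Y] [CompleteSpace Y],
      IsL1Predual ℂ X → CompactBPBpRSE ℂ X Y → IsComplexUniformlyConvex Y) :=
  ⟨fun _ _ _ _ _ _ _ _ hX h => real_case hX h, fun _ _ _ _ _ _ _ _ hX h => complex_case hX h⟩

end Pool.Agent.Results.MP_88a444_an.CompactRSEUniform
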